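import Mathlib

/-!
# Exact 2-spanning signed sets in cyclic groups: the upper bound with constant `√3 / 2`

`spans n A h` says that the `h`-fold signed sumset of `A ⊆ ℤ/n` is the whole group and `phi n h` is
the least size of such a set.

The set used here is the union of three progressions
`{0, …, M}`, `{-s + j a : 0 ≤ j ≤ M}`, `{s + k (a + 1) : 0 ≤ k ≤ M}`
with `a ≈ 3 y`, `M ≈ y / 2`, `n = a y + x`, `x ≈ 2 y`. In the plane of the pairs `(x, h)`, read as
`x + a h` modulo `n`, the twelve sumsets of two different ones of these progressions and their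
negatives are lozenges that tile the torus.
-/

namespace Pool.Agent.Results.MP_5551da_co.LozengeUpperBound

/-- The `h`-fold signed sumset `h_± A`: the sums `∑ λ_a a` with integers `λ_a`, `∑ |λ_a| = h`. -/
def signedSums (n : ℕ) (A : Finset (ZMod n)) (h : ℕ) : Set (ZMod n) :=
  {x | ∃ l : ZMod n → ℤ, (∑ a ∈ A, (l a).natAbs) = h ∧ (∑ a ∈ A, l a • a) = x}

/-- `φ_±(ℤ/n, h)`: the least size of a set `A` with `h_± A = ℤ/n`. -/
noncomputable def phi (n h : ℕ) : ℕ :=
  sInf {k | ∃ A : Finset (ZMod n), A.card = k ∧ signedSums n A h = Set.univ}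

/-- membership in one of the three progressions -/
def P (a M s u : ℤ) : Prop :=
  (∃ i, 0 ≤ i ∧ i ≤ M ∧ u = i) ∨ (∃ j, 0 ≤ j ∧ j ≤ M ∧ u = -s + j * a) ∨
    (∃ k, 0 ≤ k ∧ k ≤ M ∧ u = s + (a + 1) * k)

theorem core (n a y x0 M s z N : ℤ) (ha : 0 < a) (hn : n = a * y + x0)
    (hQ : 2 * s + M = z + a - x0) (hs : 0 ≤ s) (hsM : s ≤ M) (hR : a ≤ 2 * (2 * s + M) + 1)
    (hz1 : 2 * z ≤ y) (hz2 : y ≤ 2 * z + 1) (hyM : y - z ≤ M) (hyx : y < x0)
    (hN0 : 0 ≤ N) (hN : 2 * N ≤ n) :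
    ∃ u v, P a M s u ∧ P a M s v ∧ ∃ e f : ℤ, (e = 1 ∨ e = -1) ∧ (f = 1 ∨ f = -1) ∧
      (N = e * u + f * v ∨ N - n = e * u + f * v) := by
  obtain ⟨h, x, hx, hxl, hxu⟩ : ∃ h x : ℤ, N = a * h + x ∧ -(2 * s + M) ≤ x ∧
      x < a - (2 * s + M) := by
    refine ⟨(N + (2 * s + M)) / a, N - a * ((N + (2 * s + M)) / a), by ring, ?_, ?_⟩
    · have := Int.mul_ediv_add_emod (N + (2 * s + M)) a
      have := Int.emod_nonneg (N + (2 * s + M)) (ne_of_gt ha)
      linarith
    · have := Int.mul_ediv_add_emod (N + (2 * s + M)) a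
      have := Int.emod_lt_of_pos (N + (2 * s + M)) ha
      linarith
  have hh0 : 0 ≤ h := by
    by_contra hcon
    have h1 : h ≤ -1 := by omega
    nlinarith
  have hhy : h ≤ y - z := by
    by_contra hcon
    have h1 : y - z + 1 ≤ h := by omega
    have h2 : a * (y - z + 1) ≤ a * h := mul_le_mul_of_nonneg_left h1 ha.le
    have h3 : 0 ≤ a * (2 * (y - z) - y) := mul_nonneg ha.le (by omega)
    nlinarith
  have hhM : h ≤ M := by omega
  rcases lt_or_ge x (-(2 * s + M) + h) with hc | hc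
  · -- the gap, covered by `-V - D` one period below
    refine ⟨-s + (y + 1 - h - (x0 - a - x)) * a, s + (a + 1) * (x0 - a - x), ?_, ?_, -1, -1,
      Or.inr rfl, Or.inr rfl, Or.inr ?_⟩
    · exact Or.inr (Or.inl ⟨_, by omega, by omega, rfl⟩)
    · exact Or.inr (Or.inr ⟨_, by omega, by omega, rfl⟩)
    · rw [hx, hn]; ring
  rcases le_or_gt x (-(2 * s)) with hc1 | hc1
  · -- `V - D`
    refine ⟨-s + (h + (-(2 * s) - x)) * a, s + (a + 1) * (-(2 * s) - x), ?_, ?_, 1, -1,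
      Or.inl rfl, Or.inr rfl, Or.inl ?_⟩
    · exact Or.inr (Or.inl ⟨_, by omega, by omega, rfl⟩)
    · exact Or.inr (Or.inr ⟨_, by omega, by omega, rfl⟩)
    · rw [hx]; ring
  rcases le_or_gt x (-s) with hc2 | hc2
  · -- `-H + V`
    refine ⟨-s - x, -s + h * a, ?_, ?_, -1, 1, Or.inr rfl, Or.inl rfl, Or.inl ?_⟩
    · exact Or.inl ⟨_, by omega, by omega, rfl⟩
    · exact Or.inr (Or.inl ⟨_, by omega, by omega, rfl⟩)
    · rw [hx]; ring
  rcases le_or_gt x 0 with hc3 | hc3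
  · -- `H + V`
    refine ⟨x + s, -s + h * a, ?_, ?_, 1, 1, Or.inl rfl, Or.inl rfl, Or.inl ?_⟩
    · exact Or.inl ⟨_, by omega, by omega, rfl⟩
    · exact Or.inr (Or.inl ⟨_, by omega, by omega, rfl⟩)
    · rw [hx]; ring
  rcases le_or_gt x h with hc4 | hc4
  · -- `V + D`
    refine ⟨-s + (h - x) * a, s + (a + 1) * x, ?_, ?_, 1, 1, Or.inl rfl, Or.inl rfl, Or.inl ?_⟩
    · exact Or.inr (Or.inl ⟨_, by omega, by omega, rfl⟩)
    · exact Or.inr (Or.inr ⟨_, by omega, by omega, rfl⟩)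
    · rw [hx]; ring
  rcases le_or_gt x (h + s) with hc5 | hc5
  · -- `-H + D`
    refine ⟨s + h - x, s + (a + 1) * h, ?_, ?_, -1, 1, Or.inr rfl, Or.inl rfl, Or.inl ?_⟩
    · exact Or.inl ⟨_, by omega, by omega, rfl⟩
    · exact Or.inr (Or.inr ⟨_, by omega, by omega, rfl⟩)
    · rw [hx]; ring
  rcases le_or_gt x (h + s + M) with hc6 | hc6
  · -- `H + D`
    refine ⟨x - h - s, s + (a + 1) * h, ?_, ?_, 1, 1, Or.inl rfl, Or.inl rfl, Or.inl ?_⟩
    · exact Or.inl ⟨_, by omega, by omega, rfl⟩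
    · exact Or.inr (Or.inr ⟨_, by omega, by omega, rfl⟩)
    · rw [hx]; ring
  · -- `-V + D`
    refine ⟨-s + (x - 2 * s - h) * a, s + (a + 1) * (x - 2 * s), ?_, ?_, -1, 1, Or.inr rfl,
      Or.inl rfl, Or.inl ?_⟩
    · exact Or.inr (Or.inl ⟨_, by omega, by omega, rfl⟩)
    · exact Or.inr (Or.inr ⟨_, by omega, by omega, rfl⟩)
    · rw [hx]; ring

/-- A signed sum of two elements of a set that contains `0` is in the twofold signed sumset. -/
theorem mem_two (n : ℕ) (A : Finset (ZMod n)) (h0 : (0 : ZMod n) ∈ A) (u v : ZMod n)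
    (hu : u ∈ A) (hv : v ∈ A) (e f : ℤ) (he : e = 1 ∨ e = -1) (hf : f = 1 ∨ f = -1) :
    e • u + f • v ∈ signedSums n A 2 := by
  classical
  by_cases huv : u = v
  · subst huv
    by_cases hef : e = f
    · subst hef
      refine ⟨fun t => if t = u then 2 * e else 0, ?_, ?_⟩
      · have : ∀ t ∈ A, (if t = u then 2 * e else 0 : ℤ).natAbs = if t = u then 2 else 0 := by
          intro t _
          split_ifs
          · rcases he with rfl | rfl <;> rfl
          · rfl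
        rw [Finset.sum_congr rfl this, Finset.sum_ite_eq' A u, if_pos hu]
      · have : ∀ t ∈ A, (if t = u then 2 * e else 0 : ℤ) • t = if t = u then (2 * e) • t else 0 := by
          intro t _
          split_ifs <;> simp
        rw [Finset.sum_congr rfl this, Finset.sum_ite_eq' A u, if_pos hu, ← add_smul, two_mul]
    · have h2 : e + f = 0 := by
        rcases he with rfl | rfl <;> rcases hf with rfl | rfl <;> simp_all
      refine ⟨fun t => if t = 0 then 2 else 0, ?_, ?_⟩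
      · have : ∀ t ∈ A, (if t = 0 then 2 else 0 : ℤ).natAbs = if t = 0 then 2 else 0 := by
          intro t _
          split_ifs <;> rfl
        rw [Finset.sum_congr rfl this, Finset.sum_ite_eq' A 0, if_pos h0]
      · have : ∀ t ∈ A, (if t = 0 then 2 else 0 : ℤ) • t = 0 := by
          intro t _
          split_ifs with ht
          · rw [ht, smul_zero]
          · simp
        rw [Finset.sum_congr rfl this, ← add_smul, h2]
        simp
  · refine ⟨fun t => (if t = u then e else 0) + (if t = v then f else 0), ?_, ?_⟩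
    · have : ∀ t ∈ A, ((if t = u then e else 0) + (if t = v then f else 0) : ℤ).natAbs =
          (if t = u then 1 else 0) + (if t = v then 1 else 0) := by
        intro t _
        by_cases h1 : t = u
        · have h2 : ¬ t = v := fun h => huv (h1 ▸ h)
          rw [if_pos h1, if_neg h2, if_pos h1, if_neg h2]
          rcases he with rfl | rfl <;> rfl
        · rw [if_neg h1, if_neg h1]
          by_cases h2 : t = v
          · rw [if_pos h2, if_pos h2]
            rcases hf with rfl | rfl <;> rfl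
          · rw [if_neg h2, if_neg h2]; rfl
      rw [Finset.sum_congr rfl this, Finset.sum_add_distrib, Finset.sum_ite_eq' A u,
        Finset.sum_ite_eq' A v, if_pos hu, if_pos hv]
    · have : ∀ t ∈ A, ((if t = u then e else 0) + (if t = v then f else 0) : ℤ) • t =
          (if t = u then e • t else 0) + (if t = v then f • t else 0) := by
        intro t _
        rw [add_smul]
        congr 1 <;> split_ifs <;> simp
      rw [Finset.sum_congr rfl this, Finset.sum_add_distrib, Finset.sum_ite_eq' A u,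
        Finset.sum_ite_eq' A v, if_pos hu, if_pos hv]

/-- the three progressions in `ℤ/n` -/
def setA (n : ℕ) (a s : ℤ) (M : ℕ) : Finset (ZMod n) :=
  ((Finset.range (M + 1)).image fun i : ℕ => ((i : ℤ) : ZMod n)) ∪
  ((Finset.range (M + 1)).image fun j : ℕ => ((-s + (j : ℤ) * a : ℤ) : ZMod n)) ∪
  ((Finset.range (M + 1)).image fun k : ℕ => ((s + (a + 1) * (k : ℤ) : ℤ) : ZMod n))

theorem card_setA (n : ℕ) (a s : ℤ) (M : ℕ) : (setA n a s M).card ≤ 3 * M + 3 := by
  unfold setA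
  have h1 := Finset.card_image_le (s := Finset.range (M + 1))
    (f := fun i : ℕ => ((i : ℤ) : ZMod n))
  have h2 := Finset.card_image_le (s := Finset.range (M + 1))
    (f := fun j : ℕ => ((-s + (j : ℤ) * a : ℤ) : ZMod n))
  have h3 := Finset.card_image_le (s := Finset.range (M + 1))
    (f := fun k : ℕ => ((s + (a + 1) * (k : ℤ) : ℤ) : ZMod n))
  rw [Finset.card_range] at h1 h2 h3
  refine le_trans (Finset.card_union_le _ _) ?_
  refine le_trans (Nat.add_le_add_right (Finset.card_union_le _ _) _) ?_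
  omega

theorem mem_setA (n : ℕ) (a s : ℤ) (M : ℕ) (u : ℤ) (hu : P a M s u) :
    (u : ZMod n) ∈ setA n a s M := by
  unfold setA
  rcases hu with ⟨i, h0, h1, rfl⟩ | ⟨j, h0, h1, rfl⟩ | ⟨k, h0, h1, rfl⟩
  · refine Finset.mem_union_left _ (Finset.mem_union_left _ (Finset.mem_image.2
      ⟨u.toNat, Finset.mem_range.2 (by omega), ?_⟩))
    rw [Int.toNat_of_nonneg h0]
  · refine Finset.mem_union_left _ (Finset.mem_union_right _ (Finset.mem_image.2
      ⟨j.toNat, Finset.mem_range.2 (by omega), ?_⟩))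
    rw [Int.toNat_of_nonneg h0]
  · refine Finset.mem_union_right _ (Finset.mem_image.2
      ⟨k.toNat, Finset.mem_range.2 (by omega), ?_⟩)
    rw [Int.toNat_of_nonneg h0]

theorem phi_le (n : ℕ) (hn1 : 1 ≤ n) (a y x0 s z : ℤ) (M : ℕ) (ha : 0 < a)
    (hn : (n : ℤ) = a * y + x0)
    (hQ : 2 * s + M = z + a - x0) (hs : 0 ≤ s) (hsM : s ≤ M) (hR : a ≤ 2 * (2 * s + M) + 1)
    (hz1 : 2 * z ≤ y) (hz2 : y ≤ 2 * z + 1) (hyM : y - z ≤ M) (hyx : y < x0) :
    phi n 2 ≤ 3 * M + 3 := by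
  have : NeZero n := ⟨by omega⟩
  refine le_trans (Nat.sInf_le ⟨setA n a s M, rfl, ?_⟩) (card_setA n a s M)
  have h0 : (0 : ZMod n) ∈ setA n a s M := by
    have := mem_setA n a s M 0 (Or.inl ⟨0, le_refl _, by omega, rfl⟩)
    simpa using this
  refine Set.eq_univ_of_forall fun t => ?_
  have key : ∀ N : ℤ, 0 ≤ N → 2 * N ≤ n →
      ((N : ZMod n) ∈ signedSums n (setA n a s M) 2 ∧
        (((-N : ℤ)) : ZMod n) ∈ signedSums n (setA n a s M) 2) := by
    intro N hN0 hN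
    obtain ⟨u, v, hu, hv, e, f, he, hf, hcase⟩ :=
      core n a y x0 M s z N ha hn hQ hs hsM hR hz1 hz2 hyM hyx hN0 hN
    have hval : (N : ZMod n) = e • (u : ZMod n) + f • (v : ZMod n) := by
      have hcast : ((n : ℤ) : ZMod n) = 0 := by simp
      rcases hcase with h | h
      · rw [h]; push_cast; simp [zsmul_eq_mul]
      · have h' : N = n + (e * u + f * v) := by linarith
        rw [h', Int.cast_add, hcast, zero_add]; push_cast; simp [zsmul_eq_mul]
    refine ⟨?_, ?_⟩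
    · rw [hval]
      exact mem_two n _ h0 _ _ (mem_setA n a s M u hu) (mem_setA n a s M v hv) e f he hf
    · have : ((-N : ℤ) : ZMod n) = (-e) • (u : ZMod n) + (-f) • (v : ZMod n) := by
        rw [Int.cast_neg, hval, neg_smul, neg_smul]; ring
      rw [this]
      exact mem_two n _ h0 _ _ (mem_setA n a s M u hu) (mem_setA n a s M v hv) (-e) (-f)
        (by rcases he with rfl | rfl <;> simp) (by rcases hf with rfl | rfl <;> simp)
  have hb := ZMod.natAbs_valMinAbs_le t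
  have hc := ZMod.coe_valMinAbs t
  rcases le_or_gt 0 t.valMinAbs with hpos | hneg
  · have := (key t.valMinAbs hpos (by omega)).1
    rwa [hc] at this
  · have := (key (-t.valMinAbs) (by omega) (by omega)).2
    rwa [neg_neg, hc] at this

/-- The choice of the parameters. -/
theorem phi_le_int (n Y j q r : ℕ) (hn1 : 1 ≤ n) (hY : n = 3 * Y ^ 2 + r) (hY53 : 53 ≤ Y)
    (hq2 : 2 ≤ q) (hq8 : q ≤ 8) (hqr : r < (q - 1) * Y) (hrq : (q - 2) * Y ≤ r)
    (hj : 3 * j ^ 2 + r + q * j ≤ q * Y)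
    (hj' : q * Y < 3 * (j + 1) ^ 2 + r + q * (j + 1)) :
    (phi n 2 : ℝ) ≤ 3 / 2 * Y + 21 / 2 * j + 24 := by
  have hj2 : 3 * j ^ 2 ≤ 2 * Y := by
    obtain ⟨q', rfl⟩ := Nat.exists_eq_add_of_le hq2
    have h1 : (2 + q' - 2) = q' := by omega
    rw [h1] at hrq
    nlinarith
  have hjY : 7 * j + 11 ≤ Y := by
    by_contra hcon
    have h1 : Y ≤ 7 * j + 10 := by omega
    have h2 : 7 ≤ j := by omega
    nlinarith
  -- integers
  set y : ℤ := (Y : ℤ) - j with hy
  set ρ : ℤ := 3 * (j : ℤ) ^ 2 + r + q * j - q * Y with hρ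
  have hρ0 : ρ ≤ 0 := by
    have : (3 * (j : ℤ) ^ 2 + r + q * j) ≤ q * Y := by exact_mod_cast hj
    rw [hρ]; linarith
  have hρ1 : -(6 * (j : ℤ) + 3 + q) + 1 ≤ ρ := by
    have : (q : ℤ) * Y < 3 * ((j : ℤ) + 1) ^ 2 + r + q * (j + 1) := by exact_mod_cast hj'
    rw [hρ]; nlinarith
  set a : ℤ := 3 * y + (6 * j + q - 2) with ha
  set x0 : ℤ := 2 * y + ρ with hx0
  have hnZ : (n : ℤ) = a * y + x0 := by
    rw [hY]; push_cast; rw [ha, hx0, hρ, hy]; ring
  obtain ⟨z, hz1, hz2⟩ : ∃ z : ℤ, 2 * z ≤ y ∧ y ≤ 2 * z + 1 := ⟨y / 2, by omega, by omega⟩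
  have hq2' : (2 : ℤ) ≤ q := by exact_mod_cast hq2
  have hq8' : (q : ℤ) ≤ 8 := by exact_mod_cast hq8
  have hjY' : 7 * (j : ℤ) + 11 ≤ Y := by exact_mod_cast hjY
  have hj0 : (0 : ℤ) ≤ j := by positivity
  obtain ⟨s, hs1, hs2⟩ : ∃ s : ℤ, 3 * s ≤ z + a - x0 ∧ z + a - x0 ≤ 3 * s + 2 :=
    ⟨(z + a - x0) / 3, by omega, by omega⟩
  obtain ⟨M, hM⟩ : ∃ M : ℕ, (M : ℤ) = z + a - x0 - 2 * s :=
    ⟨(z + a - x0 - 2 * s).toNat, by rw [Int.toNat_of_nonneg (by omega)]⟩
  have hmain := phi_le n hn1 a y x0 s z M (by omega) hnZ (by omega) (by omega) (by omega)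
    (by omega) hz1 hz2 (by omega) (by omega)
  have hfin : 2 * (phi n 2 : ℤ) ≤ 3 * Y + 21 * j + 48 := by
    have h1 : (phi n 2 : ℤ) ≤ 3 * M + 3 := by exact_mod_cast hmain
    omega
  have hfin' : 2 * (phi n 2 : ℝ) ≤ 3 * Y + 21 * j + 48 := by exact_mod_cast hfin
  linarith

/-- **Result.** For all `n ≥ 10000` the least size of an exact 2-spanning set of `ℤ/n` is at most
`(√3 / 2) √n + 9 n ^ (1/4)`. -/
theorem result (n : ℕ) (hn : 10000 ≤ n) :
    (phi n 2 : ℝ) ≤ √3 / 2 * √n + 9 * √(√n) := by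
  -- `Y = ⌊√(n/3)⌋`
  obtain ⟨Y, hY1, hY2⟩ : ∃ Y : ℕ, 3 * Y ^ 2 ≤ n ∧ n < 3 * (Y + 1) ^ 2 := by
    refine ⟨Nat.sqrt (n / 3), ?_, ?_⟩
    · have := Nat.sqrt_le' (n / 3); omega
    · have := Nat.lt_succ_sqrt' (n / 3)
      have h2 : n / 3 < (Nat.sqrt (n / 3) + 1) ^ 2 := this
      omega
  obtain ⟨r, hr⟩ := Nat.exists_eq_add_of_le hY1
  have hY57 : 57 ≤ Y := by
    by_contra hcon
    have : Y ≤ 56 := by omega
    nlinarith
  have hr6 : r ≤ 6 * Y + 2 := by nlinarith
  -- the quotient `q`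
  obtain ⟨q, hq2, hqr, hrq⟩ : ∃ q : ℕ, 2 ≤ q ∧ r < (q - 1) * Y ∧ (q - 2) * Y ≤ r := by
    have hA := Nat.lt_mul_div_succ r (show 0 < Y by omega)
    have hB := Nat.div_mul_le_self r Y
    generalize r / Y = w at hA hB
    refine ⟨w + 2, by omega, ?_, ?_⟩
    · have h1 : w + 2 - 1 = w + 1 := by omega
      rw [h1]
      linarith [Nat.mul_comm Y (w + 1)]
    · have h1 : w + 2 - 2 = w := by omega
      rw [h1]
      exact hB
  have hq8 : q ≤ 8 := by
    by_contra hcon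
    have h7 : 7 ≤ q - 2 := by omega
    have := Nat.mul_le_mul_right Y h7
    omega
  -- the shift `j`
  obtain ⟨j, hj, hj'⟩ : ∃ j : ℕ, 3 * j ^ 2 + r + q * j ≤ q * Y ∧
      q * Y < 3 * (j + 1) ^ 2 + r + q * (j + 1) := by
    classical
    have hex : ∃ j : ℕ, q * Y < 3 * (j + 1) ^ 2 + r + q * (j + 1) := ⟨Y, by nlinarith⟩
    refine ⟨Nat.find hex, ?_, Nat.find_spec hex⟩
    rcases Nat.eq_zero_or_pos (Nat.find hex) with h0 | hpos
    · rw [h0]
      obtain ⟨q', rfl⟩ := Nat.exists_eq_add_of_le hq2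
      have h1 : 2 + q' - 1 = q' + 1 := by omega
      rw [h1] at hqr
      nlinarith
    · have h1 := Nat.find_min hex (show Nat.find hex - 1 < Nat.find hex by omega)
      have h2 : Nat.find hex - 1 + 1 = Nat.find hex := by omega
      rw [h2] at h1
      omega
  have hmain := phi_le_int n Y j q r (by omega) hr (by omega) hq2 hq8 hqr hrq hj hj'
  have hj2 : 3 * j ^ 2 ≤ 2 * Y := by
    obtain ⟨q', rfl⟩ := Nat.exists_eq_add_of_le hq2
    have h1 : (2 + q' - 2) = q' := by omega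
    rw [h1] at hrq
    nlinarith
  -- real estimates
  set t : ℝ := √(√(n : ℝ)) with ht
  have hn0 : (0 : ℝ) ≤ n := by positivity
  have ht0 : 0 ≤ t := Real.sqrt_nonneg _
  have ht2 : t ^ 2 = √(n : ℝ) := Real.sq_sqrt (Real.sqrt_nonneg _)
  have ht4 : (t ^ 2) ^ 2 = n := by rw [ht2]; exact Real.sq_sqrt hn0
  have hnR : (10000 : ℝ) ≤ n := by exact_mod_cast hn
  have ht10 : 10 ≤ t := by
    by_contra hcon
    have h1 : t < 10 := not_le.1 hcon
    have h2 : t ^ 2 < 100 := by nlinarith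
    have h3 : (t ^ 2) ^ 2 < 10000 := by nlinarith [sq_nonneg t]
    linarith
  have h3s : √3 ^ 2 = (3 : ℝ) := Real.sq_sqrt (by norm_num)
  have h3l : (17 / 10 : ℝ) ≤ √3 := Real.le_sqrt_of_sq_le (by norm_num)
  have hYt : √3 * Y ≤ t ^ 2 := by
    have hYR : 3 * (Y : ℝ) ^ 2 ≤ n := by exact_mod_cast hY1
    have : (√3 * Y) ^ 2 ≤ (t ^ 2) ^ 2 := by rw [mul_pow, h3s, ht4]; exact hYR
    exact (pow_le_pow_iff_left₀ (by positivity) (by positivity) (by norm_num)).1 this
  have hY0 : (0 : ℝ) ≤ Y := by positivity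
  have h17 : 17 / 10 * (Y : ℝ) ≤ t ^ 2 := le_trans (mul_le_mul_of_nonneg_right h3l hY0) hYt
  have hjR : 3 * (j : ℝ) ^ 2 ≤ 2 * Y := by exact_mod_cast hj2
  have hj0 : (0 : ℝ) ≤ j := by positivity
  have hjt : 21 / 2 * (j : ℝ) ≤ 33 / 5 * t := by
    by_contra hcon
    have h1 : 33 / 5 * t < 21 / 2 * (j : ℝ) := not_le.1 hcon
    have h2 : (33 / 5 * t) ^ 2 < (21 / 2 * (j : ℝ)) ^ 2 := by
      apply pow_lt_pow_left₀ h1 (by positivity) (by norm_num)
    nlinarith
  have h32 : 3 / 2 * (Y : ℝ) ≤ √3 / 2 * t ^ 2 := by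
    have : √3 / 2 * (√3 * Y) ≤ √3 / 2 * t ^ 2 :=
      mul_le_mul_of_nonneg_left hYt (by positivity)
    have h4 : √3 / 2 * (√3 * Y) = √3 ^ 2 / 2 * Y := by ring
    rw [h4, h3s] at this
    exact this
  rw [← ht2]
  linarith

end Pool.Agent.Results.MP_5551da_co.LozengeUpperBound
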